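import Pool.Agent.Work.MP_9999b5_mf.All

set_option autoImplicit false

open Pool.Agent.Work.MaxSums

/-- Q1, and the Manickam-Miklos-Singhi conjecture, for all `k` and all `n ≥ 4k`: the maximal number of
non-negative `k`-subsets of a set of `n` distinct real numbers with sum `0` is `C(n-1,k)`, and any `n` real
numbers with non-negative sum have at least `C(n-1,k-1)` subfamilies of size `k` with non-negative sum. -/
theorem Pool.Agent.Results.MP_9999b5_co.FullMMS.result :
    ∀ k n : ℕ, 0 < k → 4 * k ≤ n →
      IsGreatest (values k n) ((n - 1).choose k) ∧ MMS k n :=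
  Pool.Agent.Work.MP_9999b5_mf.h_FUL
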